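import Mathlib

open TensorProduct MulOpposite CategoryTheory Polynomial

namespace H11.Gendo

/-- `B ≅ D(B)` as bimodules, where `(a · f · c)(x) = f (c x a)` on `D(B) = Hom_K(B, K)`. -/
def IsSymmetricAlg (K B : Type) [Field K] [Ring B] [Algebra K B] : Prop :=
  ∃ e : B ≃ₗ[K] Module.Dual K B, ∀ a b c x : B, e (a * b * c) x = e b (c * x * a)

/-- `A ≅ End_B(M)` for a finite-dimensional symmetric `K`-algebra `B` and a finitely generated
`B`-module `M` having `B` as a direct summand. -/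
def IsGendoSymmetric (K A : Type) [Field K] [Ring A] [Algebra K A] : Prop :=
  ∃ (B : Type) (_ : Ring B) (_ : Algebra K B) (_ : Module.Finite K B), IsSymmetricAlg K B ∧
    ∃ (M : Type) (_ : AddCommGroup M) (_ : Module B M) (_ : Module K M) (_ : IsScalarTower K B M)
      (_ : Module.Finite B M),
      (∃ (i : B →ₗ[B] M) (p : M →ₗ[B] B), ∀ b, p (i b) = b) ∧
        Nonempty (A ≃ₐ[K] Module.End B M)

/-- Global dimension: supremum of the projective dimensions of finitely generated modules. -/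
noncomputable def gldim (A : Type) [Ring A] : WithBot ℕ∞ :=
  ⨆ (M : ModuleCat.{0} A) (_ : Module.Finite A M), projectiveDimension M

/-- `A` as a module over the enveloping algebra `A ⊗[K] Aᵐᵒᵖ`: `(a ⊗ op b) • m = a m b`. -/
noncomputable def envModule (K A : Type) [Field K] [Ring A] [Algebra K A] :
    ModuleCat.{0} (A ⊗[K] Aᵐᵒᵖ) :=
  letI : Module (A ⊗[K] Aᵐᵒᵖ) A := TensorProduct.Algebra.module
  ModuleCat.of (A ⊗[K] Aᵐᵒᵖ) A

/-- The injective dimension of `A` over its enveloping algebra. -/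
noncomputable def idimEnv (K A : Type) [Field K] [Ring A] [Algebra K A] : WithBot ℕ∞ :=
  injectiveDimension (envModule K A)

theorem gldim_field (L : Type) [Field L] : gldim L = 0 := by
  apply le_antisymm
  · refine iSup_le fun M => iSup_le fun _ => ?_
    have : Projective M := ModuleCat.projective_of_free (Module.Free.chooseBasis L M)
    have h := (projectiveDimension_le_iff M 0).2
      ((projective_iff_hasProjectiveDimensionLE_zero M).1 this)
    simpa using h
  · refine le_iSup_of_le (ModuleCat.of L L) (le_iSup_of_le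
      (inferInstanceAs (Module.Finite L L)) ?_)
    have : Projective (ModuleCat.of L L) :=
      ModuleCat.projective_of_free (Module.Free.chooseBasis L (ModuleCat.of L L))
    have : Nontrivial (ModuleCat.of L L) := inferInstanceAs (Nontrivial L)
    rw [ModuleCat.projectiveDimension_eq_zero_of_projective]

theorem symm_field (K L : Type) [Field K] [Field L] [Algebra K L] [Module.Finite K L]
    (φ : L →ₗ[K] K) (s : L) (hs : φ s = 1) : IsSymmetricAlg K L := by
  let e0 : L →ₗ[K] Module.Dual K L := (LinearMap.mul K L).compr₂ φ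
  have hinj : Function.Injective e0 := by
    rw [injective_iff_map_eq_zero]
    intro a ha
    by_contra h
    have := LinearMap.congr_fun ha (a⁻¹ * s)
    simp [e0, ← mul_assoc, mul_inv_cancel₀ h, hs] at this
  refine ⟨LinearMap.linearEquivOfInjective e0 hinj (Subspace.dual_finrank_eq).symm, ?_⟩
  intro a b c x
  simp only [LinearMap.linearEquivOfInjective_apply, e0, LinearMap.compr₂_apply,
    LinearMap.mul_apply']
  congr 1
  ring

theorem gendo_field (K L : Type) [Field K] [Field L] [Algebra K L] [Module.Finite K L]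
    (φ : L →ₗ[K] K) (s : L) (hs : φ s = 1) : IsGendoSymmetric K L := by
  refine ⟨L, inferInstance, inferInstance, inferInstance, symm_field K L φ s hs, L, inferInstance,
    inferInstance, inferInstance, inferInstance, inferInstance,
    ⟨LinearMap.id, LinearMap.id, fun _ => rfl⟩, ⟨?_⟩⟩
  refine AlgEquiv.ofBijective (Algebra.lsmul K L L) ⟨?_, ?_⟩
  · intro a b h
    have := LinearMap.congr_fun h 1
    simpa using this
  · intro f
    refine ⟨f 1, ?_⟩
    ext
    simp

theorem not_inj (K L : Type) [Field K] [Field L] [Algebra K L] (h2 : (2 : K) = 0)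
    (φ : L →ₗ[K] K) (s : L) (t : K) (hs : φ s = 1) (h1 : φ 1 = 0)
    (hst : s * s = algebraMap K L t) (htop : Algebra.adjoin K {s} = ⊤) :
    idimEnv K L ≠ 0 := by
  intro h0
  have hle : injectiveDimension (envModule K L) < ((1 : ℕ) : WithBot ℕ∞) := by
    have : injectiveDimension (envModule K L) = 0 := h0
    rw [this]; simp
  have hI : Injective (envModule K L) :=
    injective_iff_hasInjectiveDimensionLT_one.2 (injectiveDimension_lt_iff.1 hle)
  letI : Module (L ⊗[K] Lᵐᵒᵖ) L := TensorProduct.Algebra.module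
  have hI' : Injective (ModuleCat.of (L ⊗[K] Lᵐᵒᵖ) L) := hI
  have hM : Module.Injective (L ⊗[K] Lᵐᵒᵖ) L := Module.injective_module_of_injective_object _ _
  set x : L ⊗[K] Lᵐᵒᵖ := s ⊗ₜ[K] 1 - 1 ⊗ₜ[K] op s with hx
  have hchar : ∀ y : L ⊗[K] Lᵐᵒᵖ, y + y = 0 := fun y => by
    rw [← two_smul K y, h2, zero_smul]
  have halg : ∀ r : K, ((1 : L) ⊗ₜ[K] op (algebraMap K L r) : L ⊗[K] Lᵐᵒᵖ) =
      algebraMap K L r ⊗ₜ[K] 1 := by
    intro r
    rw [Algebra.algebraMap_eq_smul_one, op_smul, op_one, tmul_smul, smul_tmul']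
  have key : ∀ q : L, ((1 : L) ⊗ₜ[K] op q) * x = (q ⊗ₜ[K] (1 : Lᵐᵒᵖ)) * x := by
    intro q
    have hq : q ∈ Algebra.adjoin K {s} := by rw [htop]; trivial
    induction hq using Algebra.adjoin_induction with
    | mem q hq =>
      rw [Set.mem_singleton_iff] at hq
      subst hq
      simp only [hx, mul_sub, Algebra.TensorProduct.tmul_mul_tmul, one_mul, mul_one]
      rw [← op_mul, hst, halg]
      have a1 := hchar (q ⊗ₜ[K] op q)
      have a2 := hchar (algebraMap K L t ⊗ₜ[K] (1 : Lᵐᵒᵖ))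
      rw [sub_eq_sub_iff_add_eq_add, a1, a2]
    | algebraMap r => rw [halg]
    | add a b _ _ ha hb => rw [MulOpposite.op_add, tmul_add, add_tmul, add_mul, add_mul, ha, hb]
    | mul a b _ _ ha hb =>
      have e1 : ((1 : L) ⊗ₜ[K] op (a * b) : L ⊗[K] Lᵐᵒᵖ) = (1 ⊗ₜ[K] op b) * (1 ⊗ₜ[K] op a) := by
        rw [Algebra.TensorProduct.tmul_mul_tmul, one_mul, op_mul]
      have e2 : ((1 : L) ⊗ₜ[K] op b : L ⊗[K] Lᵐᵒᵖ) * (a ⊗ₜ[K] 1) =
          (a ⊗ₜ[K] 1) * (1 ⊗ₜ[K] op b) := by
        simp [Algebra.TensorProduct.tmul_mul_tmul]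
      have e3 : ((a * b) ⊗ₜ[K] (1 : Lᵐᵒᵖ) : L ⊗[K] Lᵐᵒᵖ) = (a ⊗ₜ[K] 1) * (b ⊗ₜ[K] 1) := by
        simp [Algebra.TensorProduct.tmul_mul_tmul]
      rw [e1, mul_assoc, ha, ← mul_assoc, e2, mul_assoc, hb, e3, mul_assoc]
  have hx0 : x ≠ 0 := by
    intro hz
    let ψ : L ⊗[K] Lᵐᵒᵖ →ₗ[K] L :=
      (TensorProduct.rid K L).toLinearMap ∘ₗ
        TensorProduct.map LinearMap.id (φ ∘ₗ (opLinearEquiv K).symm.toLinearMap)
    have := congrArg ψ hz
    simp [ψ, hx, hs, h1] at this
  let f : L →ₗ[L ⊗[K] Lᵐᵒᵖ] (L ⊗[K] Lᵐᵒᵖ) :=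
    { toFun := fun a => (a ⊗ₜ[K] (1 : Lᵐᵒᵖ)) * x
      map_add' := fun a b => by rw [add_tmul, add_mul]
      map_smul' := fun r a => by
        simp only [RingHom.id_apply, smul_eq_mul]
        induction r using TensorProduct.induction_on with
        | zero =>
          have e0 : (0 : L ⊗[K] Lᵐᵒᵖ) • a = 0 := zero_smul (L ⊗[K] Lᵐᵒᵖ) a
          rw [e0, zero_tmul, zero_mul, zero_mul]
        | tmul p q =>
          rw [TensorProduct.Algebra.smul_def]
          have e1 : (p ⊗ₜ[K] q : L ⊗[K] Lᵐᵒᵖ) * (a ⊗ₜ[K] 1) =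
              ((p * a) ⊗ₜ[K] 1) * (1 ⊗ₜ[K] op (unop q)) := by
            simp [Algebra.TensorProduct.tmul_mul_tmul]
          rw [← mul_assoc, e1, mul_assoc, key, ← mul_assoc,
            Algebra.TensorProduct.tmul_mul_tmul]
          simp [MulOpposite.smul_eq_mul_unop, mul_assoc]
        | add r r' hr hr' => rw [add_smul, add_tmul, add_mul, hr, hr', add_mul] }
  have hf : Function.Injective f := by
    rw [injective_iff_map_eq_zero]
    intro a ha
    by_contra h
    apply hx0
    have h3 : (a⁻¹ ⊗ₜ[K] (1 : Lᵐᵒᵖ)) * ((a ⊗ₜ[K] (1 : Lᵐᵒᵖ)) * x) = 0 := by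
      have : (a ⊗ₜ[K] (1 : Lᵐᵒᵖ)) * x = 0 := ha
      rw [this, mul_zero]
    rw [← mul_assoc, Algebra.TensorProduct.tmul_mul_tmul, inv_mul_cancel₀ h, mul_one,
      ← Algebra.TensorProduct.one_def, one_mul] at h3
    exact h3
  obtain ⟨g, hg⟩ := hM.out f hf LinearMap.id
  have h4 := hg 1
  have h5 : f 1 = x • (1 : L ⊗[K] Lᵐᵒᵖ) := by
    show ((1 : L) ⊗ₜ[K] (1 : Lᵐᵒᵖ)) * x = _
    rw [← Algebra.TensorProduct.one_def, one_mul, smul_eq_mul, mul_one]
  rw [h5, map_smul, hx, sub_smul, TensorProduct.Algebra.smul_def,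
    TensorProduct.Algebra.smul_def] at h4
  simp [MulOpposite.smul_eq_mul_unop, mul_comm] at h4

abbrev K0 : Type := RatFunc (ZMod 2)

theorem irr : Irreducible (X ^ 2 - C (RatFunc.X : K0)) := by
  apply X_pow_sub_C_irreducible_of_prime Nat.prime_two
  intro b hb
  have hb0 : b ≠ 0 := by
    rintro rfl
    simp at hb
    exact RatFunc.X_ne_zero hb.symm
  have h := congrArg RatFunc.intDegree hb
  rw [pow_two, RatFunc.intDegree_mul hb0 hb0, RatFunc.intDegree_X] at h
  omega

end H11.Gendo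

namespace Pool.Agent.Results.MP_38adfa_al.Insep

open H11.Gendo

theorem result :
    ∃ (K : Type) (_ : Field K) (A : Type) (_ : Ring A) (_ : Algebra K A) (_ : Module.Finite K A),
      IsGendoSymmetric K A ∧ ∃ g : ℕ, gldim A = g ∧ idimEnv K A ≠ 2 * g := by
  haveI : Fact (Irreducible (X ^ 2 - C (RatFunc.X : K0))) := ⟨irr⟩
  let f : K0[X] := X ^ 2 - C RatFunc.X
  have hf0 : f ≠ 0 := irr.ne_zero
  let pb := AdjoinRoot.powerBasis hf0
  have hdim : pb.dim = 2 := by
    simp only [pb, AdjoinRoot.powerBasis_dim, f]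
    exact natDegree_X_pow_sub_C
  haveI : Module.Finite K0 (AdjoinRoot f) := pb.finite
  let φ : AdjoinRoot f →ₗ[K0] K0 := pb.basis.coord ⟨1, by omega⟩
  have hs : φ (AdjoinRoot.root f) = 1 := by
    have : AdjoinRoot.root f = pb.basis ⟨1, by omega⟩ := by
      rw [pb.basis_eq_pow]; simp [pb]
    rw [this]
    simp only [φ, Module.Basis.coord_apply, Module.Basis.repr_self, Finsupp.single_eq_same]
  have h1 : φ 1 = 0 := by
    have : (1 : AdjoinRoot f) = pb.basis ⟨0, by omega⟩ := by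
      rw [pb.basis_eq_pow]; simp
    rw [this]
    simp only [φ, Module.Basis.coord_apply, Module.Basis.repr_self]
    exact Finsupp.single_eq_of_ne (by simp)
  have hst : AdjoinRoot.root f * AdjoinRoot.root f = algebraMap K0 (AdjoinRoot f) RatFunc.X := by
    have := AdjoinRoot.eval₂_root f
    simp only [f, eval₂_sub, eval₂_X_pow, eval₂_C] at this
    rw [← pow_two]
    exact sub_eq_zero.1 this
  have h2 : (2 : K0) = 0 := by
    have : (2 : K0) = algebraMap (ZMod 2) K0 2 := by simp [map_ofNat]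
    rw [this]
    have h : (2 : ZMod 2) = 0 := by decide
    rw [h, map_zero]
  refine ⟨K0, inferInstance, AdjoinRoot f, inferInstance, inferInstance, inferInstance,
    gendo_field K0 (AdjoinRoot f) φ _ hs, 0, ?_, ?_⟩
  · simpa using gldim_field (AdjoinRoot f)
  · simpa using not_inj K0 (AdjoinRoot f) h2 φ _ RatFunc.X hs h1 hst
      (AdjoinRoot.adjoinRoot_eq_top)

end Pool.Agent.Results.MP_38adfa_al.Insep
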